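import Pool.Agent.Q16.SQ.Stm

/-! Project SQ of helper16: job CNT (helper174) -/

set_option autoImplicit false

open Pool.Agent.Helper549.Tri

namespace Q16.SQ

theorem t_CNT : S_CNT := by
  unfold S_CNT
  set A : Set ℝ := {x | x ∈ Set.Icc 0 Real.pi ∧ IsAlgebraic ℚ (Real.cos x)} with hA
  have hAc : A.Countable := by
    have h1 : (Real.cos '' A).Countable := by
      refine (Algebraic.countable ℚ ℝ).mono ?_
      rintro _ ⟨x, hx, rfl⟩
      exact hx.2
    exact Set.countable_of_injective_of_countable_image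
      (Real.injOn_cos.mono fun x hx => hx.1) h1
  refine (hAc.prod hAc).mono ?_
  rintro p ⟨T, -, hG, rfl⟩
  have hcos : ∀ i, IsAlgebraic ℚ (Real.cos (angle T i)) := by
    intro i
    by_contra h
    exact hG (Or.inl ⟨i, h⟩)
  have hmem : ∀ i, angle T i ∈ A := fun i =>
    ⟨⟨EuclideanGeometry.angle_nonneg _ _ _, EuclideanGeometry.angle_le_pi _ _ _⟩, hcos i⟩
  exact ⟨hmem 0, hmem 1⟩

end Q16.SQ
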